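import Mathlib
import Pool.Agent.R590.KlDefs
import Pool.Agent.R590.KlFinal

set_option autoImplicit false

namespace Pool.Agent.Results.MP_177a3e_lc.RestartTrees

open Cardinal Topology
open Pool.Agent.R590.Kl

/-- Assume CH (in particular under GCH). There is an everywhere large `ω₂`-Kurepa tree whose set of
branches is a continuous image of the generalized Baire space of functions `ω₂ → ω₂` if and only if
there is any `ω₂`-Kurepa tree whose set of branches is such a continuous image. Trees of the second
kind exist if `V = L`, so GCH does not imply that the set of branches of an everywhere large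
`ω₂`-Kurepa tree is never a continuous image of the space. -/
theorem result (ch : (2 : Cardinal.{0}) ^ ℵ₀ = ℵ_ 1) :
    (∃ T : ∀ α : W, Set (Set.Iio α → W), IsKurepa T ∧ EverywhereLarge T ∧ IsContImage (Body T)) ↔
      ∃ T : ∀ α : W, Set (Set.Iio α → W), IsKurepa T ∧ IsContImage (Body T) :=
  (main ch).symm

end Pool.Agent.Results.MP_177a3e_lc.RestartTrees
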